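import Mathlib

/-!
# Scalar shifts of a real square matrix need not contain a Liouville matrix

For every `n ≥ 2` there is a real `n × n` matrix `A` such that `A - lam • 1` is not a
Liouville matrix for any real `lam`.

Idea: with `v = (A - lam) y - x` the numbers `y i * v j - y j * v i` do not depend on `lam`.
For `A = √2 • B`, with `B` the (integral) companion matrix of `X ^ n - 2`, which has no rational
eigenvector, one of them is `√2 * w - m` with integers `w ≠ 0`, `m`, and this is at least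
`1 / (4 |w|)` in absolute value.
-/

namespace Pool.Agent.Results.MP_14d1e0_nt.NoScalarShift

open Matrix

/-- A real `m × n` matrix `M` is a Liouville matrix: it has no exact integer relation
`M y = x` (with integer vectors `y`, `x` not both zero), and for each `N > 0` there are integer
vectors `x`, `y` with `‖y‖ > 1` and `‖M y - x‖ < ‖y‖ ^ (-N)`, all norms being sup norms. -/
def IsLiouvilleMatrix {m n : ℕ} (M : Matrix (Fin m) (Fin n) ℝ) : Prop :=
  (∀ (y : Fin n → ℤ) (x : Fin m → ℤ), (y ≠ 0 ∨ x ≠ 0) →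
      M *ᵥ (fun j => (y j : ℝ)) ≠ fun i => (x i : ℝ)) ∧
  ∀ N : ℝ, 0 < N → ∃ (x : Fin m → ℤ) (y : Fin n → ℤ), 1 < ‖y‖ ∧
      ‖M *ᵥ (fun j => (y j : ℝ)) - (fun i => (x i : ℝ))‖ < ‖y‖ ^ (-N)

/-- The set `X_A` of real numbers `lam` for which `A - lam • 1` is a Liouville matrix. -/
def shiftSet {n : ℕ} (A : Matrix (Fin n) (Fin n) ℝ) : Set ℝ :=
  {lam | IsLiouvilleMatrix (A - lam • (1 : Matrix (Fin n) (Fin n) ℝ))}

/-- Sanity check of the definition: for `m = n = 1` the Liouville matrices are exactly the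
Liouville numbers (in the sense of Mathlib). -/
theorem isLiouvilleMatrix_one_iff (M : Matrix (Fin 1) (Fin 1) ℝ) :
    IsLiouvilleMatrix M ↔ Liouville (M 0 0) := by
  have hmv : ∀ (y x : Fin 1 → ℤ), (M *ᵥ (fun j => (y j : ℝ)) - (fun i => (x i : ℝ)))
      = fun _ => M 0 0 * y 0 - x 0 := by
    intro y x
    funext i
    fin_cases i
    simp [Matrix.mulVec, dotProduct]
  have hnorm : ∀ y : Fin 1 → ℤ, ‖y‖ = |(y 0 : ℝ)| := by
    intro y
    rw [← Int.norm_eq_abs]
    apply le_antisymm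
    · rw [pi_norm_le_iff_of_nonneg (norm_nonneg _)]
      intro i
      fin_cases i
      exact le_rfl
    · exact norm_le_pi_norm y 0
  constructor
  · rintro ⟨h1, h2⟩ n
    obtain ⟨x, y, hy, hxy⟩ := h2 (n + 1) (by positivity)
    rw [hmv, pi_norm_const, Real.norm_eq_abs] at hxy
    rw [hnorm] at hy hxy
    have hy0 : (y 0 : ℝ) ≠ 0 := by
      intro h
      rw [h] at hy
      simp at hy
      linarith
    have hpos : 0 < |(y 0 : ℝ)| := by linarith
    refine ⟨(y 0).sign * x 0, |y 0|, by exact_mod_cast hy, ?_, ?_⟩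
    · intro h
      have h3 := h1 y x (Or.inl (by
        rintro rfl
        simp at hy0))
      apply h3
      funext i
      fin_cases i
      have : (M *ᵥ (fun j => (y j : ℝ))) 0 = M 0 0 * y 0 := by
        simp [Matrix.mulVec, dotProduct]
      show (M *ᵥ (fun j => (y j : ℝ))) 0 = x 0
      rw [this, h]
      push_cast
      rw [← Int.cast_abs, ← Int.sign_mul_self_eq_abs (y 0)] 
      push_cast
      have hs : ((y 0).sign : ℝ) ≠ 0 := by
        have : y 0 ≠ 0 := by exact_mod_cast hy0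
        have := (Int.sign_eq_zero_iff_zero (a := y 0)).not.mpr this
        exact_mod_cast this
      field_simp
    · have e1 : M 0 0 - (((y 0).sign * x 0 : ℤ) : ℝ) / ((|y 0| : ℤ) : ℝ)
          = (M 0 0 * y 0 - x 0) / (y 0 : ℝ) := by
        rw [← Int.sign_mul_self_eq_abs (y 0)]
        push_cast
        have hs : ((y 0).sign : ℝ) ≠ 0 := by
          have : y 0 ≠ 0 := by exact_mod_cast hy0
          have := (Int.sign_eq_zero_iff_zero (a := y 0)).not.mpr this
          exact_mod_cast this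
        field_simp
      rw [e1, abs_div]
      have e2 : |(y 0 : ℝ)| ^ (-((n : ℝ) + 1)) = 1 / |(y 0 : ℝ)| ^ (n + 1) := by
        rw [Real.rpow_neg hpos.le]
        rw [show ((n : ℝ) + 1) = ((n + 1 : ℕ) : ℝ) by push_cast; ring, Real.rpow_natCast, one_div]
      rw [e2] at hxy
      rw [div_lt_iff₀ hpos]
      push_cast
      calc |M 0 0 * (y 0 : ℝ) - x 0| < 1 / |(y 0 : ℝ)| ^ (n + 1) := hxy
        _ ≤ 1 / |(y 0 : ℝ)| ^ n * |(y 0 : ℝ)| := by
          rw [div_mul_eq_mul_div, one_mul]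
          rw [div_le_div_iff₀ (by positivity) (by positivity)]
          have : 1 ≤ |(y 0 : ℝ)| := hy.le
          have h5 : 0 < |(y 0 : ℝ)| ^ n := by positivity
          rw [pow_succ]
          have h6 : 1 ≤ |(y 0 : ℝ)| * |(y 0 : ℝ)| := by nlinarith
          calc 1 * |(y 0 : ℝ)| ^ n ≤ (|(y 0 : ℝ)| * |(y 0 : ℝ)|) * |(y 0 : ℝ)| ^ n := by gcongr
            _ = |(y 0 : ℝ)| * (|(y 0 : ℝ)| ^ n * |(y 0 : ℝ)|) := by ring
  · intro h
    refine ⟨?_, ?_⟩
    · intro y x hyx hM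
      have h1 : M 0 0 * y 0 = x 0 := by
        have := congrFun hM 0
        simpa [Matrix.mulVec, dotProduct] using this
      have hirr := h.irrational
      by_cases hy : y 0 = 0
      · have hx : x 0 = 0 := by
          rw [hy] at h1
          simp at h1
          exact_mod_cast h1.symm
        rcases hyx with h2 | h2
        · apply h2
          funext i
          fin_cases i
          exact hy
        · apply h2
          funext i
          fin_cases i
          exact hx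
      · apply hirr
        have : (y 0 : ℝ) ≠ 0 := by exact_mod_cast hy
        refine ⟨(x 0 : ℚ) / y 0, ?_⟩
        push_cast
        field_simp
        linarith
    · intro N hN
      obtain ⟨n, hn⟩ := exists_nat_ge (N + 1)
      obtain ⟨a, b, hb, hne, hlt⟩ := h n
      refine ⟨fun _ => a, fun _ => b, ?_, ?_⟩
      · rw [hnorm]
        have : (1 : ℝ) < b := by exact_mod_cast hb
        rw [abs_of_pos (by linarith)]
        exact this
      · rw [hmv, pi_norm_const, Real.norm_eq_abs, hnorm]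
        have hb' : (1 : ℝ) < b := by exact_mod_cast hb
        rw [abs_of_pos (show (0 : ℝ) < b by linarith)]
        have e1 : M 0 0 * (b : ℝ) - a = (M 0 0 - a / b) * b := by
          field_simp
        rw [e1, abs_mul, abs_of_pos (show (0 : ℝ) < b by linarith)]
        have e2 : 1 / (b : ℝ) ^ n = (b : ℝ) ^ (-(n : ℝ)) := by
          rw [Real.rpow_neg (by linarith), Real.rpow_natCast, one_div]
        calc |M 0 0 - a / b| * (b : ℝ) < 1 / (b : ℝ) ^ n * b := by
              apply mul_lt_mul_of_pos_right hlt (by linarith)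
          _ = (b : ℝ) ^ (-(n : ℝ) + 1) := by
              rw [e2, Real.rpow_add (by linarith), Real.rpow_one]
          _ ≤ (b : ℝ) ^ (-N) := by
              apply Real.rpow_le_rpow_of_exponent_le hb'.le
              linarith

/-- Integral companion matrix of `X ^ n - 2`. -/
def B (n : ℕ) : Matrix (Fin n) (Fin n) ℤ := fun i j =>
  if (i : ℕ) = j + 1 then 1 else if (i : ℕ) = 0 ∧ (j : ℕ) + 1 = n then 2 else 0

theorem B_mulVec_succ {n : ℕ} (y : Fin n → ℤ) (i j : Fin n) (h : (i : ℕ) = j + 1) :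
    (B n *ᵥ y) i = y j := by
  rw [Matrix.mulVec, dotProduct, Finset.sum_eq_single j]
  · simp [B, h]
  · intro b _ hb
    have h1 : ¬ ((i : ℕ) = b + 1) := by
      intro h2
      apply hb
      apply Fin.ext
      omega
    have h2 : ¬ ((i : ℕ) = 0 ∧ (b : ℕ) + 1 = n) := by omega
    simp only [B, if_neg h1, if_neg h2, zero_mul]
  · intro h
    exact absurd (Finset.mem_univ _) h

theorem B_mulVec_zero {n : ℕ} (y : Fin n → ℤ) (i j : Fin n) (h : (i : ℕ) = 0)
    (hj : (j : ℕ) + 1 = n) : (B n *ᵥ y) i = 2 * y j := by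
  rw [Matrix.mulVec, dotProduct, Finset.sum_eq_single j]
  · have h1 : ¬ ((i : ℕ) = j + 1) := by omega
    have h2 : (i : ℕ) = 0 ∧ (j : ℕ) + 1 = n := ⟨h, hj⟩
    simp only [B, if_neg h1, if_pos h2]
  · intro b _ hb
    have h1 : ¬ ((i : ℕ) = b + 1) := by omega
    have h2 : ¬ ((i : ℕ) = 0 ∧ (b : ℕ) + 1 = n) := by
      rintro ⟨-, h3⟩
      apply hb
      apply Fin.ext
      omega
    simp only [B, if_neg h1, if_neg h2, zero_mul]
  · intro h
    exact absurd (Finset.mem_univ _) h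

theorem abs_coord_le {n : ℕ} (y : Fin n → ℤ) (i : Fin n) : |((y i : ℤ) : ℝ)| ≤ ‖y‖ := by
  have := norm_le_pi_norm y i
  rwa [Int.norm_eq_abs] at this

theorem abs_B_le {n : ℕ} (y : Fin n → ℤ) (i : Fin n) :
    |(((B n *ᵥ y) i : ℤ) : ℝ)| ≤ 2 * ‖y‖ := by
  by_cases h : (i : ℕ) = 0
  · have hn : 0 < n := i.pos
    have hj : ((⟨n - 1, by omega⟩ : Fin n) : ℕ) + 1 = n := by
      show n - 1 + 1 = n
      omega
    rw [B_mulVec_zero y i ⟨n - 1, by omega⟩ h hj]
    push_cast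
    rw [abs_mul, abs_two]
    have := abs_coord_le y ⟨n - 1, by omega⟩
    linarith
  · have hi : (i : ℕ) < n := i.2
    have hj : (i : ℕ) = ((⟨(i : ℕ) - 1, by omega⟩ : Fin n) : ℕ) + 1 := by
      show (i : ℕ) = (i : ℕ) - 1 + 1
      omega
    rw [B_mulVec_succ y i ⟨(i : ℕ) - 1, by omega⟩ hj]
    have := abs_coord_le y ⟨(i : ℕ) - 1, by omega⟩
    have := norm_nonneg y
    linarith

/-- `2` is not a rational `n`-th power, `n ≥ 2`. -/
theorem no_root {n : ℕ} (hn : 2 ≤ n) (μ : ℚ) : μ ^ n ≠ 2 := by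
  intro h
  have hR : ((μ : ℝ)) ^ n = ((2 : ℤ) : ℝ) := by
    have := congrArg (fun q : ℚ => (q : ℝ)) h
    push_cast at this ⊢
    exact this
  have hirr := irrational_nrt_of_notint_nrt n 2 hR
  by_cases hz : ∃ y : ℤ, (μ : ℝ) = y
  · obtain ⟨z, hz⟩ := hz
    rw [hz] at hR
    have hZ : z ^ n = 2 := by exact_mod_cast hR
    have hZ' : z.natAbs ^ n = 2 := by
      have := congrArg Int.natAbs hZ
      rwa [Int.natAbs_pow] at this
    have h2 : 2 ≤ z.natAbs := by
      by_contra hlt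
      push Not at hlt
      interval_cases hk : z.natAbs
      · rw [zero_pow (by omega)] at hZ'
        omega
      · rw [one_pow] at hZ'
        omega
    have h3 : 2 ^ 2 ≤ z.natAbs ^ n :=
      (Nat.pow_le_pow_left h2 2).trans (Nat.pow_le_pow_right (by omega) hn)
    omega
  · exact (hirr hz (by omega)) ⟨μ, rfl⟩

/-- `B` has no rational eigenvector: some `2 × 2` minor of `(y, B y)` does not vanish. -/
theorem exists_minor {n : ℕ} (hn : 2 ≤ n) (y : Fin n → ℤ) (hy : y ≠ 0) :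
    ∃ i j : Fin n, y i * (B n *ᵥ y) j - y j * (B n *ᵥ y) i ≠ 0 := by
  by_contra hcon
  push Not at hcon
  obtain ⟨k, hk⟩ : ∃ k, y k ≠ 0 := by
    by_contra h
    push Not at h
    exact hy (funext h)
  set μ : ℚ := ((B n *ᵥ y) k : ℚ) / (y k : ℚ) with hμ
  have hkQ : (y k : ℚ) ≠ 0 := by exact_mod_cast hk
  have heig : ∀ j, ((B n *ᵥ y) j : ℚ) = μ * (y j : ℚ) := by
    intro j
    have h := hcon k j
    have hQ : (y k : ℚ) * ((B n *ᵥ y) j : ℚ) - (y j : ℚ) * ((B n *ᵥ y) k : ℚ) = 0 := by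
      exact_mod_cast h
    rw [hμ]
    field_simp
    linarith
  -- the last coordinate
  set l : Fin n := ⟨n - 1, by omega⟩ with hl
  have hpow : ∀ t : ℕ, ∀ ht : t < n,
      (y ⟨n - 1 - t, by omega⟩ : ℚ) = μ ^ t * (y l : ℚ) := by
    intro t
    induction t with
    | zero =>
      intro _
      simp [hl]
    | succ t ih =>
      intro ht
      have ih' := ih (by omega)
      have h1 : (((⟨n - 1 - t, by omega⟩ : Fin n)) : ℕ)
          = ((⟨n - 1 - (t + 1), by omega⟩ : Fin n) : ℕ) + 1 := by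
        show n - 1 - t = n - 1 - (t + 1) + 1
        omega
      have h2 := B_mulVec_succ y ⟨n - 1 - t, by omega⟩ ⟨n - 1 - (t + 1), by omega⟩ h1
      have h3 := heig ⟨n - 1 - t, by omega⟩
      rw [h2, ih'] at h3
      rw [h3]
      ring
  have h0 := hpow (n - 1) (by omega)
  have hz : (((⟨n - 1 - (n - 1), by omega⟩ : Fin n)) : ℕ) = 0 := by
    show n - 1 - (n - 1) = 0
    omega
  have h4 := B_mulVec_zero y ⟨n - 1 - (n - 1), by omega⟩ l hz (by
    show n - 1 + 1 = n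
    omega)
  have h5 := heig ⟨n - 1 - (n - 1), by omega⟩
  rw [h4, h0] at h5
  have h6 : (μ ^ n - 2) * (y l : ℚ) = 0 := by
    have : μ ^ n = μ * μ ^ (n - 1) := by
      rw [← pow_succ']
      congr 1
      omega
    rw [this]
    push_cast at h5
    linarith
  rcases mul_eq_zero.mp h6 with h7 | h7
  · exact no_root hn μ (by linarith)
  · apply hk
    have hkn : (k : ℕ) < n := k.2
    have h8 := hpow (n - 1 - k) (by omega)
    have h9 : (⟨n - 1 - (n - 1 - k), by omega⟩ : Fin n) = k := by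
      apply Fin.ext
      show n - 1 - (n - 1 - (k : ℕ)) = k
      omega
    rw [h9, h7, mul_zero] at h8
    exact_mod_cast h8

/-- `√2` is badly approximable. -/
theorem sqrt_two_lower (w m : ℤ) (hw : w ≠ 0) :
    1 / (4 * |(w : ℝ)|) ≤ |Real.sqrt 2 * w - m| := by
  by_contra hcon
  push Not at hcon
  have hw1 : (1 : ℝ) ≤ |(w : ℝ)| := by
    have : (1 : ℤ) ≤ |w| := Int.one_le_abs hw
    exact_mod_cast this
  have hs0 : (0 : ℝ) ≤ Real.sqrt 2 := Real.sqrt_nonneg 2
  have hs2 : Real.sqrt 2 * Real.sqrt 2 = 2 := Real.mul_self_sqrt (by norm_num)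
  have hs : Real.sqrt 2 ≤ 3 / 2 := by
    nlinarith
  have hq : (2 * w ^ 2 - m ^ 2 : ℤ) ≠ 0 := by
    intro h
    have hR : (Real.sqrt 2 * w) ^ 2 = (m : ℝ) ^ 2 := by
      have h' : ((2 * w ^ 2 - m ^ 2 : ℤ) : ℝ) = 0 := by rw [h]; simp
      push_cast at h'
      nlinarith
    have hwR : (w : ℝ) ≠ 0 := by exact_mod_cast hw
    have hirr : Irrational (Real.sqrt 2) := irrational_sqrt_two
    rcases sq_eq_sq_iff_eq_or_eq_neg.mp hR with h1 | h1
    · apply hirr
      refine ⟨(m : ℚ) / w, ?_⟩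
      push_cast
      field_simp
      linarith
    · apply hirr
      refine ⟨-(m : ℚ) / w, ?_⟩
      push_cast
      field_simp
      linarith
  have h1 : (1 : ℝ) ≤ |(Real.sqrt 2 * w - m) * (Real.sqrt 2 * w + m)| := by
    have h2 : (Real.sqrt 2 * w - m) * (Real.sqrt 2 * w + m) = ((2 * w ^ 2 - m ^ 2 : ℤ) : ℝ) := by
      push_cast
      nlinarith
    rw [h2]
    have : (1 : ℤ) ≤ |2 * w ^ 2 - m ^ 2| := Int.one_le_abs hq
    exact_mod_cast this
  rw [abs_mul] at h1
  have h3 : 1 / (4 * |(w : ℝ)|) ≤ 1 / 4 := by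
    apply one_div_le_one_div_of_le <;> linarith
  have h4 : |Real.sqrt 2 * w + m| ≤ 4 * |(w : ℝ)| := by
    have : Real.sqrt 2 * w + m = 2 * (Real.sqrt 2 * w) - (Real.sqrt 2 * w - m) := by ring
    rw [this]
    refine (abs_sub _ _).trans ?_
    rw [abs_mul, abs_mul, abs_two, abs_of_nonneg hs0]
    nlinarith
  have h5 : |Real.sqrt 2 * w - m| * |Real.sqrt 2 * w + m| < 1 / (4 * |(w : ℝ)|) * (4 * |(w : ℝ)|) := by
    have h6 : (0 : ℝ) < 4 * |(w : ℝ)| := by linarith
    calc |Real.sqrt 2 * w - m| * |Real.sqrt 2 * w + m|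
        ≤ |Real.sqrt 2 * w - m| * (4 * |(w : ℝ)|) := by gcongr
      _ < 1 / (4 * |(w : ℝ)|) * (4 * |(w : ℝ)|) := by gcongr
  have h7 : 1 / (4 * |(w : ℝ)|) * (4 * |(w : ℝ)|) = 1 := by
    field_simp
  linarith

/-- The matrix `A = √2 • B`. -/
noncomputable def A (n : ℕ) : Matrix (Fin n) (Fin n) ℝ :=
  Real.sqrt 2 • (B n).map (fun z : ℤ => (z : ℝ))

theorem A_mulVec {n : ℕ} (lam : ℝ) (y x : Fin n → ℤ) (i : Fin n) :
    ((A n - lam • (1 : Matrix (Fin n) (Fin n) ℝ)) *ᵥ (fun j => (y j : ℝ))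
        - (fun i => (x i : ℝ))) i
      = Real.sqrt 2 * ((B n *ᵥ y) i : ℤ) - lam * y i - x i := by
  have h : ((B n).map (fun z : ℤ => (z : ℝ)) *ᵥ (fun j => (y j : ℝ))) i
      = (((B n *ᵥ y) i : ℤ) : ℝ) := by
    simp only [Matrix.mulVec, dotProduct, Matrix.map_apply]
    push_cast
    rfl
  rw [A, Pi.sub_apply, Matrix.sub_mulVec, Pi.sub_apply, Matrix.smul_mulVec, Matrix.smul_mulVec,
    Matrix.one_mulVec, Pi.smul_apply, Pi.smul_apply, h]
  simp

/-- Uniform lower bound: for all `lam`, `x` and all `y ≠ 0` one has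
`‖(A - lam) y - x‖ ≥ ‖y‖ ^ (-3) / 32`. -/
theorem uniform_bound {n : ℕ} (hn : 2 ≤ n) (lam : ℝ) (x y : Fin n → ℤ) (hy : y ≠ 0) :
    1 ≤ 32 * ‖y‖ ^ 3 * ‖(A n - lam • (1 : Matrix (Fin n) (Fin n) ℝ)) *ᵥ (fun j => (y j : ℝ))
        - (fun i => (x i : ℝ))‖ := by
  set v := (A n - lam • (1 : Matrix (Fin n) (Fin n) ℝ)) *ᵥ (fun j => (y j : ℝ))
        - (fun i => (x i : ℝ)) with hv
  obtain ⟨i, j, hij⟩ := exists_minor hn y hy
  set w : ℤ := y i * (B n *ᵥ y) j - y j * (B n *ᵥ y) i with hw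
  have hvi : v i = Real.sqrt 2 * ((B n *ᵥ y) i : ℤ) - lam * y i - x i := A_mulVec lam y x i
  have hvj : v j = Real.sqrt 2 * ((B n *ᵥ y) j : ℤ) - lam * y j - x j := A_mulVec lam y x j
  have hY0 : 0 < ‖y‖ := norm_pos_iff.mpr hy
  have key : (y i : ℝ) * v j - (y j : ℝ) * v i
      = Real.sqrt 2 * w - ((y i * x j - y j * x i : ℤ) : ℝ) := by
    rw [hvi, hvj, hw]
    push_cast
    ring
  have h1 := sqrt_two_lower w (y i * x j - y j * x i) hij
  rw [← key] at h1
  have h2 : |(y i : ℝ) * v j - (y j : ℝ) * v i| ≤ 2 * ‖y‖ * ‖v‖ := by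
    refine (abs_sub _ _).trans ?_
    rw [abs_mul, abs_mul]
    have hi := abs_coord_le y i
    have hj := abs_coord_le y j
    have hvi' : |v i| ≤ ‖v‖ := by
      have := norm_le_pi_norm v i
      rwa [Real.norm_eq_abs] at this
    have hvj' : |v j| ≤ ‖v‖ := by
      have := norm_le_pi_norm v j
      rwa [Real.norm_eq_abs] at this
    have e1 : |(y i : ℝ)| * |v j| ≤ ‖y‖ * ‖v‖ := by gcongr
    have e2 : |(y j : ℝ)| * |v i| ≤ ‖y‖ * ‖v‖ := by gcongr
    linarith
  have h3 : |(w : ℝ)| ≤ 4 * ‖y‖ ^ 2 := by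
    rw [hw]
    push_cast
    refine (abs_sub _ _).trans ?_
    rw [abs_mul, abs_mul]
    have hi := abs_coord_le y i
    have hj := abs_coord_le y j
    have hbi := abs_B_le y i
    have hbj := abs_B_le y j
    have e1 : |(y i : ℝ)| * |((B n *ᵥ y) j : ℝ)| ≤ ‖y‖ * (2 * ‖y‖) := by gcongr
    have e2 : |(y j : ℝ)| * |((B n *ᵥ y) i : ℝ)| ≤ ‖y‖ * (2 * ‖y‖) := by gcongr
    nlinarith
  have hw0 : 0 < |(w : ℝ)| := by
    have : (w : ℝ) ≠ 0 := by exact_mod_cast hij
    exact abs_pos.mpr this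
  have h4 : 1 / (16 * ‖y‖ ^ 2) ≤ 2 * ‖y‖ * ‖v‖ := by
    refine le_trans ?_ (h1.trans h2)
    apply one_div_le_one_div_of_le
    · positivity
    · linarith
  rw [div_le_iff₀ (by positivity)] at h4
  calc (1 : ℝ) ≤ 2 * ‖y‖ * ‖v‖ * (16 * ‖y‖ ^ 2) := h4
    _ = 32 * ‖y‖ ^ 3 * ‖v‖ := by ring

theorem two_le_norm {n : ℕ} (y : Fin n → ℤ) (h : 1 < ‖y‖) : 2 ≤ ‖y‖ := by
  by_contra hcon
  push Not at hcon
  have h1 : ‖y‖ ≤ 1 := by
    rw [pi_norm_le_iff_of_nonneg zero_le_one]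
    intro i
    have h2 : ‖y i‖ < 2 := lt_of_le_of_lt (norm_le_pi_norm y i) hcon
    rw [Int.norm_eq_abs] at h2 ⊢
    have h3 : |y i| < 2 := by exact_mod_cast h2
    have h4 : |y i| ≤ 1 := by omega
    exact_mod_cast h4
  linarith

/-- For every `n ≥ 2` there is a real `n × n` matrix `A` for which the set `X_A` of real `lam`
such that `A - lam • 1` is a Liouville matrix is empty. -/
theorem result : ∀ n : ℕ, 2 ≤ n → ∃ A : Matrix (Fin n) (Fin n) ℝ, shiftSet A = ∅ := by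
  intro n hn
  refine ⟨A n, ?_⟩
  rw [Set.eq_empty_iff_forall_notMem]
  intro lam hlam
  obtain ⟨-, h2⟩ := hlam
  obtain ⟨x, y, hy, hxy⟩ := h2 8 (by norm_num)
  have hy2 := two_le_norm y hy
  have hy0 : y ≠ 0 := by
    rintro rfl
    simp at hy
    linarith
  have hb := uniform_bound hn lam x y hy0
  have h3 : ‖y‖ ^ (-8 : ℝ) = 1 / ‖y‖ ^ 8 := by
    rw [Real.rpow_neg (by linarith)]
    rw [show (8 : ℝ) = ((8 : ℕ) : ℝ) by norm_num, Real.rpow_natCast, one_div]
  rw [h3] at hxy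
  have hpos : 0 < 32 * ‖y‖ ^ 3 := by positivity
  have h4 : 32 * ‖y‖ ^ 3 * ‖(A n - lam • (1 : Matrix (Fin n) (Fin n) ℝ)) *ᵥ (fun j => (y j : ℝ))
        - (fun i => (x i : ℝ))‖ < 32 * ‖y‖ ^ 3 * (1 / ‖y‖ ^ 8) :=
    mul_lt_mul_of_pos_left hxy hpos
  have h5 : 32 * ‖y‖ ^ 3 * (1 / ‖y‖ ^ 8) = 32 / ‖y‖ ^ 5 := by
    have : ‖y‖ ≠ 0 := by positivity
    field_simp
  have h6 : 32 / ‖y‖ ^ 5 ≤ 1 := by
    rw [div_le_one (by positivity)]
    calc (32 : ℝ) = 2 ^ 5 := by norm_num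
      _ ≤ ‖y‖ ^ 5 := by gcongr
  linarith

end Pool.Agent.Results.MP_14d1e0_nt.NoScalarShift
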